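import Mathlib
import Pool.Agent.V11157.Polyline
import Pool.Agent.V11157.Spiral

/-!
# A spiral tiling in which the marked prototile has exactly three aspects

The prototile is the unit square, the marking is one of its sides, and the tiling is the tiling by
unit squares with corners in the integer lattice.  The square spiral through all points of the
lattice, starting at the origin, is one unbounded simple curve.  Every unit square has its left, its
bottom or its top side on the spiral, and these sides can be chosen so that they cover the spiral.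
-/

set_option autoImplicit false

namespace Pool.Agent.Results.MP_361b6b_co.ThreeAspects

open Pool.Agent.V11157

/-- The Euclidean plane. -/
abbrev Plane : Type := EuclideanSpace ℝ (Fin 2)

/-- A closed topological disk: a set homeomorphic to the closed unit ball of the plane. -/
def IsClosedDisk (t : Set Plane) : Prop :=
  Nonempty (t ≃ₜ Metric.closedBall (0 : Plane) 1)

/-- An arc: a homeomorphic image of the unit interval. -/
def IsArc (a : Set Plane) : Prop := Nonempty (Set.Icc (0 : ℝ) 1 ≃ₜ a)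

/-- A marked monohedral tiling with prototile `T` and marking `M`: the tiles are the sets
`φ i '' T`, the tile number `i` carries the arcs `φ i '' a` for `a` in `M`. -/
structure MarkedTiling {ι : Type} (T : Set Plane) (M : Set (Set Plane)) (φ : ι → Plane ≃ᵢ Plane) :
    Prop where
  countable : Countable ι
  disk : IsClosedDisk T
  cover : (⋃ i, φ i '' T) = Set.univ
  disjoint : ∀ i j, i ≠ j → Disjoint (interior (φ i '' T)) (interior (φ j '' T))
  locallyFinite : ∀ K : Set Plane, Bornology.IsBounded K → {i | (φ i '' T ∩ K).Nonempty}.Finite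
  finite : M.Finite
  nonempty : M.Nonempty
  arcs : ∀ a ∈ M, IsArc a ∧ a ⊆ T

/-- The union of all carried arcs. -/
def Carried {ι : Type} (M : Set (Set Plane)) (φ : ι → Plane ≃ᵢ Plane) : Set Plane :=
  ⋃ i, ⋃ a ∈ M, φ i '' a

/-- An unbounded simple curve: the image of a closed embedding of the line or of a half-line. -/
def IsCurve (Γ : Set Plane) : Prop :=
  (∃ f : ℝ → Plane, Topology.IsClosedEmbedding f ∧ Set.range f = Γ) ∨
  (∃ f : Set.Ici (0 : ℝ) → Plane, Topology.IsClosedEmbedding f ∧ Set.range f = Γ)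

/-- The marked tiling is a spiral: the carried arcs form finitely many pairwise disjoint unbounded
simple curves. -/
def IsSpiral {ι : Type} (M : Set (Set Plane)) (φ : ι → Plane ≃ᵢ Plane) : Prop :=
  ∃ n : ℕ, 0 < n ∧ ∃ Γ : Fin n → Set Plane, (∀ k, IsCurve (Γ k)) ∧
    (∀ k l, k ≠ l → Disjoint (Γ k) (Γ l)) ∧ (⋃ k, Γ k) = Carried M φ

/-- The marked tiles number `i` and `j` are in the same aspect: some translation maps the tile `i`
onto the tile `j` and the arcs carried by the tile `i` onto the arcs carried by the tile `j`. -/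
def SameAspect {ι : Type} (T : Set Plane) (M : Set (Set Plane)) (φ : ι → Plane ≃ᵢ Plane)
    (i j : ι) : Prop :=
  ∃ w : Plane, (fun z => z + w) '' (φ i '' T) = φ j '' T ∧
    (fun s : Set Plane => (fun z => z + w) '' s) '' ((fun a => φ i '' a) '' M) =
      (fun a => φ j '' a) '' M

/-- There are exactly `n` aspects. -/
def HasAspects {ι : Type} (T : Set Plane) (M : Set (Set Plane)) (φ : ι → Plane ≃ᵢ Plane)
    (n : ℕ) : Prop :=
  ∃ c : ι → Fin n, Function.Surjective c ∧ ∀ i j, c i = c j ↔ SameAspect T M φ i j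

/-! ### Points -/

/-- The point with coordinates `(u, v)`. -/
noncomputable def pt (u v : ℝ) : Plane := !₂[u, v]

@[simp] theorem pt_zero (u v : ℝ) : pt u v 0 = u := by simp [pt]
@[simp] theorem pt_one (u v : ℝ) : pt u v 1 = v := by simp [pt]

theorem ext2 {z w : Plane} (h0 : z 0 = w 0) (h1 : z 1 = w 1) : z = w := by
  ext i
  fin_cases i
  · exact h0
  · exact h1

theorem dist_sq (z w : Plane) : dist z w ^ 2 = (z 0 - w 0) ^ 2 + (z 1 - w 1) ^ 2 := by
  rw [EuclideanSpace.dist_eq, Real.sq_sqrt (by positivity)]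
  simp [Real.dist_eq]

/-- A map preserving the distances, in coordinates. -/
noncomputable def mkIso (f g : Plane → Plane) (hfg : ∀ z, f (g z) = z)
    (h : ∀ z w, (f z 0 - f w 0) ^ 2 + (f z 1 - f w 1) ^ 2 = (z 0 - w 0) ^ 2 + (z 1 - w 1) ^ 2) :
    Plane ≃ᵢ Plane :=
  IsometryEquiv.mk' f g hfg (by
    apply Isometry.of_dist_eq
    intro z w
    apply (pow_left_inj₀ dist_nonneg dist_nonneg two_ne_zero).1
    rw [dist_sq, dist_sq, h])

/-- The kind of a tile: 0 left, 1 bottom, 2 top. -/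
noncomputable def g (k : Fin 3) : Plane ≃ᵢ Plane :=
  match k with
  | 0 => IsometryEquiv.refl Plane
  | 1 => mkIso (fun z => pt (z 1) (z 0)) (fun z => pt (z 1) (z 0))
      (fun z => ext2 (by simp) (by simp)) (fun z w => by simp; ring)
  | 2 => mkIso (fun z => pt (z 1) (1 - z 0)) (fun z => pt (1 - z 1) (z 0))
      (fun z => ext2 (by simp) (by simp)) (fun z w => by simp; ring)

theorem g0 (z : Plane) : g 0 z = z := rfl
theorem g1 (z : Plane) : g 1 z = pt (z 1) (z 0) := rfl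
theorem g2 (z : Plane) : g 2 z = pt (z 1) (1 - z 0) := rfl

/-- The unit square. -/
def Q : Set Plane := {z | 0 ≤ z 0 ∧ z 0 ≤ 1 ∧ 0 ≤ z 1 ∧ z 1 ≤ 1}

/-- The left side of the unit square. -/
def L : Set Plane := {z | z 0 = 0 ∧ 0 ≤ z 1 ∧ z 1 ≤ 1}

/-- The marked side in a tile of kind `k`. -/
def side (k : Fin 3) : Set Plane :=
  match k with
  | 0 => {z | z 0 = 0 ∧ 0 ≤ z 1 ∧ z 1 ≤ 1}
  | 1 => {z | z 1 = 0 ∧ 0 ≤ z 0 ∧ z 0 ≤ 1}
  | 2 => {z | z 1 = 1 ∧ 0 ≤ z 0 ∧ z 0 ≤ 1}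

theorem g_Q (k : Fin 3) : g k '' Q = Q := by
  fin_cases k
  · exact Set.image_id Q
  · ext z
    constructor
    · rintro ⟨w, ⟨h1, h2, h3, h4⟩, rfl⟩
      change g 1 w ∈ Q
      rw [g1]
      exact ⟨by simpa using h3, by simpa using h4, by simpa using h1, by simpa using h2⟩
    · rintro ⟨h1, h2, h3, h4⟩
      refine ⟨pt (z 1) (z 0), ⟨by simpa using h3, by simpa using h4, by simpa using h1,
        by simpa using h2⟩, ?_⟩
      change g 1 _ = z
      rw [g1]
      apply ext2 <;> simp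
  · ext z
    constructor
    · rintro ⟨w, ⟨h1, h2, h3, h4⟩, rfl⟩
      change g 2 w ∈ Q
      rw [g2]
      exact ⟨by simpa using h3, by simpa using h4, by simpa using h2, by simpa using h1⟩
    · rintro ⟨h1, h2, h3, h4⟩
      refine ⟨pt (1 - z 1) (z 0), ⟨by simpa using h4, by simpa using h3, by simpa using h1,
        by simpa using h2⟩, ?_⟩
      change g 2 _ = z
      rw [g2]
      apply ext2 <;> simp

theorem g_L (k : Fin 3) : g k '' L = side k := by
  fin_cases k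
  · exact Set.image_id L
  · ext z
    constructor
    · rintro ⟨w, ⟨h1, h2, h3⟩, rfl⟩
      change g 1 w ∈ side 1
      rw [g1]
      exact ⟨by simpa using h1, by simpa using h2, by simpa using h3⟩
    · rintro ⟨h1, h2, h3⟩
      refine ⟨pt (z 1) (z 0), ⟨by simpa using h1, by simpa using h2, by simpa using h3⟩, ?_⟩
      change g 1 _ = z
      rw [g1]
      apply ext2 <;> simp
  · ext z
    constructor
    · rintro ⟨w, ⟨h1, h2, h3⟩, rfl⟩
      change g 2 w ∈ side 2
      rw [g2]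
      exact ⟨by simp [h1], by simpa using h2, by simpa using h3⟩
    · rintro ⟨h1, h2, h3⟩
      refine ⟨pt (1 - z 1) (z 0), ⟨by simp [h1], by simpa using h2, by simpa using h3⟩, ?_⟩
      change g 2 _ = z
      rw [g2]
      apply ext2 <;> simp

/-- The kind of the tile number `t`. -/
def kind (t : ℤ × ℤ) : Fin 3 :=
  if (0 < t.1 ∧ 1 - t.1 ≤ t.2 ∧ t.2 ≤ t.1 - 1) ∨ (t.1 < 0 ∧ t.1 ≤ t.2 ∧ t.2 ≤ -t.1 - 1) then 0
  else if 0 < t.2 ∧ -t.2 ≤ t.1 ∧ t.1 ≤ t.2 - 1 then 1
  else if t.2 < 0 ∧ t.2 + 1 ≤ t.1 ∧ t.1 ≤ -t.2 - 1 then 2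
  else if 0 ≤ t.2 then 2 else 1

/-- The corner of the tile number `t`. -/
noncomputable def cor (t : ℤ × ℤ) : Plane := pt t.1 t.2

/-- The isometries. -/
noncomputable def φ (t : ℤ × ℤ) : Plane ≃ᵢ Plane :=
  (g (kind t)).trans (IsometryEquiv.addRight (cor t))

theorem φ_image (t : ℤ × ℤ) (s : Set Plane) : φ t '' s = (fun z => z + cor t) '' (g (kind t) '' s) := by
  rw [Set.image_image]
  rfl

theorem φ_Q (t : ℤ × ℤ) : φ t '' Q = {z : Plane | (t.1 : ℝ) ≤ z 0 ∧ z 0 ≤ (t.1 : ℝ) + 1 ∧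
    (t.2 : ℝ) ≤ z 1 ∧ z 1 ≤ (t.2 : ℝ) + 1} := by
  rw [φ_image, g_Q]
  ext z
  constructor
  · rintro ⟨w, ⟨h1, h2, h3, h4⟩, rfl⟩
    refine ⟨?_, ?_, ?_, ?_⟩ <;> simp [cor] <;> linarith
  · rintro ⟨h1, h2, h3, h4⟩
    refine ⟨z - cor t, ⟨?_, ?_, ?_, ?_⟩, by simp⟩ <;> simp [cor] <;> linarith

theorem mem_φ_L (t : ℤ × ℤ) (z : Plane) : z ∈ φ t '' L ↔ z - cor t ∈ side (kind t) := by
  rw [φ_image, g_L]
  constructor
  · rintro ⟨w, hw, rfl⟩
    simpa using hw
  · intro h
    exact ⟨z - cor t, h, by simp⟩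

/-! ### The spiral curve -/

/-- The point of the plane of a lattice point. -/
noncomputable def V (u : ℤ × ℤ) : Plane := pt u.1 u.2

/-- The corners of the curve. -/
noncomputable def p (k : ℤ) : Plane := V (Spiral.v k.natAbs)

/-- A point of the step from `u` to the next point. -/
noncomputable def S (u : ℤ × ℤ) (τ : ℝ) : Plane := V u + τ • (V (Spiral.next u) - V u)

theorem S_bot {u : ℤ × ℤ} (h : Spiral.Bot u) (τ : ℝ) : S u τ = pt (u.1 + τ) u.2 := by
  rw [S, Spiral.next_bot h]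
  apply ext2
  · simp [V]
  · simp [V]

theorem S_rig {u : ℤ × ℤ} (h : Spiral.Rig u) (τ : ℝ) : S u τ = pt u.1 (u.2 + τ) := by
  rw [S, Spiral.next_rig h]
  apply ext2
  · simp [V]
  · simp [V]

theorem S_top {u : ℤ × ℤ} (h : Spiral.Top u) (τ : ℝ) : S u τ = pt (u.1 - τ) u.2 := by
  rw [S, Spiral.next_top h]
  apply ext2
  · simp [V]; ring
  · simp [V]

theorem S_lef {u : ℤ × ℤ} (h : Spiral.Lef u) (τ : ℝ) : S u τ = pt u.1 (u.2 - τ) := by
  rw [S, Spiral.next_lef h]
  apply ext2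
  · simp [V]
  · simp [V]; ring

theorem int_eq {a b : ℤ} {s t : ℝ} (hs0 : 0 ≤ s) (hs1 : s < 1) (ht0 : 0 ≤ t) (ht1 : t < 1)
    (h : (a : ℝ) + s = b + t) : a = b ∧ s = t := by
  have h1 : (a : ℝ) < b + 1 := by linarith
  have h2 : (b : ℝ) < a + 1 := by linarith
  have h1' : a < b + 1 := by exact_mod_cast h1
  have h2' : b < a + 1 := by exact_mod_cast h2
  have e : a = b := by omega
  subst e
  exact ⟨rfl, by linarith⟩

theorem int_eq_neg {a b : ℤ} {s t : ℝ} (hs0 : 0 ≤ s) (hs1 : s < 1) (ht0 : 0 ≤ t) (ht1 : t < 1)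
    (h : (a : ℝ) - s = b - t) : a = b ∧ s = t := by
  have h1 := int_eq (a := b) (b := a) hs0 hs1 ht0 ht1 (by linarith)
  exact ⟨h1.1.symm, h1.2⟩

theorem int_eq_zero {a b : ℤ} {s : ℝ} (hs0 : 0 ≤ s) (hs1 : s < 1)
    (h : (a : ℝ) + s = b) : a = b ∧ s = 0 :=
  int_eq hs0 hs1 le_rfl one_pos (by linarith)

theorem int_eq_zero' {a b : ℤ} {s : ℝ} (hs0 : 0 ≤ s) (hs1 : s < 1)
    (h : (a : ℝ) - s = b) : a = b ∧ s = 0 := by
  have h1 := int_eq (a := b) (b := a) hs0 hs1 le_rfl one_pos (by linarith)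
  exact ⟨h1.1.symm, h1.2⟩

theorem S_cases (x y : ℤ) (τ : ℝ) :
    ((y ≤ 0 ∧ y ≤ x ∧ x ≤ -y) ∧ (S (x, y) τ) 0 = x + τ ∧ (S (x, y) τ) 1 = y) ∨
    ((0 < x ∧ -x < y ∧ y < x) ∧ (S (x, y) τ) 0 = x ∧ (S (x, y) τ) 1 = y + τ) ∨
    ((0 < y ∧ -y < x ∧ x ≤ y) ∧ (S (x, y) τ) 0 = x - τ ∧ (S (x, y) τ) 1 = y) ∨
    ((x < 0 ∧ x < y ∧ y ≤ -x) ∧ (S (x, y) τ) 0 = x ∧ (S (x, y) τ) 1 = y - τ) := by
  rcases Spiral.cases (x, y) with h | h | h | h
  · left; refine ⟨h, ?_⟩; rw [S_bot h]; simp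
  · right; left; refine ⟨h, ?_⟩; rw [S_rig h]; simp
  · right; right; left; refine ⟨h, ?_⟩; rw [S_top h]; simp
  · right; right; right; refine ⟨h, ?_⟩; rw [S_lef h]; simp

theorem S_inj {u u' : ℤ × ℤ} {τ τ' : ℝ} (h0 : 0 ≤ τ) (h1 : τ < 1) (h0' : 0 ≤ τ') (h1' : τ' < 1)
    (h : S u τ = S u' τ') : u = u' ∧ τ = τ' := by
  obtain ⟨x, y⟩ := u
  obtain ⟨x', y'⟩ := u'
  have e0 := congrArg (fun z : Plane => z 0) h
  have e1 := congrArg (fun z : Plane => z 1) h
  simp only at e0 e1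
  rcases S_cases x y τ with ⟨hu, a0, a1⟩ | ⟨hu, a0, a1⟩ | ⟨hu, a0, a1⟩ | ⟨hu, a0, a1⟩ <;>
    rcases S_cases x' y' τ' with ⟨hu', b0, b1⟩ | ⟨hu', b0, b1⟩ | ⟨hu', b0, b1⟩ | ⟨hu', b0, b1⟩ <;>
    rw [a0, b0] at e0 <;> rw [a1, b1] at e1 <;> clear a0 a1 b0 b1
  · obtain ⟨rfl, rfl⟩ := int_eq h0 h1 h0' h1' e0
    obtain rfl : y = y' := by exact_mod_cast e1
    exact ⟨rfl, rfl⟩
  · obtain ⟨a1, a2⟩ := int_eq_zero h0 h1 e0
    obtain ⟨b1, b2⟩ := int_eq_zero h0' h1' e1.symm
    exact ⟨by rw [a1, b1], by rw [a2, b2]⟩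
  · exfalso
    have : y = y' := by exact_mod_cast e1
    omega
  · obtain ⟨a1, a2⟩ := int_eq_zero h0 h1 e0
    obtain ⟨b1, b2⟩ := int_eq_zero' h0' h1' e1.symm
    exact ⟨by rw [a1, b1], by rw [a2, b2]⟩
  · obtain ⟨a1, a2⟩ := int_eq_zero h0' h1' e0.symm
    obtain ⟨b1, b2⟩ := int_eq_zero h0 h1 e1
    exact ⟨by rw [a1, b1], by rw [a2, b2]⟩
  · obtain ⟨rfl, rfl⟩ := int_eq h0 h1 h0' h1' e1
    obtain rfl : x = x' := by exact_mod_cast e0
    exact ⟨rfl, rfl⟩
  · obtain ⟨a1, a2⟩ := int_eq_zero' h0' h1' e0.symm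
    obtain ⟨b1, b2⟩ := int_eq_zero h0 h1 e1
    exact ⟨by rw [a1, b1], by rw [a2, b2]⟩
  · exfalso
    have : x = x' := by exact_mod_cast e0
    omega
  · exfalso
    have : y = y' := by exact_mod_cast e1
    omega
  · obtain ⟨a1, a2⟩ := int_eq_zero' h0 h1 e0
    obtain ⟨b1, b2⟩ := int_eq_zero h0' h1' e1.symm
    exact ⟨by rw [a1, b1], by rw [a2, b2]⟩
  · obtain ⟨rfl, rfl⟩ := int_eq_neg h0 h1 h0' h1' e0
    obtain rfl : y = y' := by exact_mod_cast e1
    exact ⟨rfl, rfl⟩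
  · obtain ⟨a1, a2⟩ := int_eq_zero' h0 h1 e0
    obtain ⟨b1, b2⟩ := int_eq_zero' h0' h1' e1.symm
    exact ⟨by rw [a1, b1], by rw [a2, b2]⟩
  · obtain ⟨a1, a2⟩ := int_eq_zero h0' h1' e0.symm
    obtain ⟨b1, b2⟩ := int_eq_zero' h0 h1 e1
    exact ⟨by rw [a1, b1], by rw [a2, b2]⟩
  · exfalso
    have : x = x' := by exact_mod_cast e0
    omega
  · obtain ⟨a1, a2⟩ := int_eq_zero' h0' h1' e0.symm
    obtain ⟨b1, b2⟩ := int_eq_zero' h0 h1 e1
    exact ⟨by rw [a1, b1], by rw [a2, b2]⟩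
  · obtain ⟨rfl, rfl⟩ := int_eq_neg h0 h1 h0' h1' e1
    obtain rfl : x = x' := by exact_mod_cast e0
    exact ⟨rfl, rfl⟩

theorem p_succ (n : ℕ) : p ((n : ℤ) + 1) = V (Spiral.next (Spiral.v n)) := by
  rw [p]
  have : ((n : ℤ) + 1).natAbs = n + 1 := by omega
  rw [this]
  rfl

theorem p_nat (n : ℕ) : p (n : ℤ) = V (Spiral.v n) := rfl

theorem dist_V_next (u : ℤ × ℤ) : dist (V u) (V (Spiral.next u)) ≤ 1 := by
  have h : dist (V u) (V (Spiral.next u)) ^ 2 = 1 := by
    rw [dist_sq]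
    rcases Spiral.cases u with hu | hu | hu | hu
    · rw [Spiral.next_bot hu]; simp [V]
    · rw [Spiral.next_rig hu]; simp [V]
    · rw [Spiral.next_top hu]; simp [V]
    · rw [Spiral.next_lef hu]; simp [V]
  have h0 : 0 ≤ dist (V u) (V (Spiral.next u)) := dist_nonneg
  nlinarith

theorem dist_p (k : ℤ) : dist (p k) (p (k + 1)) ≤ 1 := by
  rcases le_or_gt 0 k with h | h
  · obtain ⟨n, rfl⟩ := Int.eq_ofNat_of_zero_le h
    rw [p_succ, p_nat]
    exact dist_V_next _
  · obtain ⟨n, hn⟩ : ∃ n : ℕ, k = -(n : ℤ) - 1 := ⟨(-k - 1).toNat, by omega⟩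
    have e1 : k.natAbs = n + 1 := by omega
    have e2 : (k + 1).natAbs = n := by omega
    rw [p, p, e1, e2, dist_comm]
    exact dist_V_next _

theorem abs_coord_le (z : Plane) (i : Fin 2) : |z i| ≤ ‖z‖ := by
  have := PiLp.norm_apply_le z i
  simpa [Real.norm_eq_abs] using this

theorem finite_p (R : ℝ) : {k : ℤ | ‖p k‖ ≤ R}.Finite := by
  have hA : {u : ℤ × ℤ | ‖V u‖ ≤ R}.Finite := by
    apply ((Set.finite_Icc (-⌈R⌉) ⌈R⌉).prod (Set.finite_Icc (-⌈R⌉) ⌈R⌉)).subset
    rintro ⟨x, y⟩ h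
    have h' : ‖V (x, y)‖ ≤ R := h
    have h0 := (abs_coord_le (V (x, y)) 0).trans (h'.trans (Int.le_ceil R))
    have h1 := (abs_coord_le (V (x, y)) 1).trans (h'.trans (Int.le_ceil R))
    simp only [V, pt_zero, pt_one, abs_le] at h0 h1
    refine ⟨⟨?_, ?_⟩, ⟨?_, ?_⟩⟩
    · exact_mod_cast h0.1
    · exact_mod_cast h0.2
    · exact_mod_cast h1.1
    · exact_mod_cast h1.2
  have hB : {n : ℕ | ‖V (Spiral.v n)‖ ≤ R}.Finite :=
    hA.preimage Spiral.v_injective.injOn
  apply ((hB.image (fun n : ℕ => (n : ℤ))).union (hB.image (fun n : ℕ => -(n : ℤ)))).subset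
  intro k hk
  rcases Int.natAbs_eq k with h | h
  · left
    exact ⟨k.natAbs, hk, h.symm⟩
  · right
    exact ⟨k.natAbs, hk, h.symm⟩

theorem curve_inj : Function.Injective
    (Polyline.path p ∘ (Subtype.val : Set.Ici (0 : ℝ) → ℝ)) := by
  rintro ⟨t, ht⟩ ⟨s, hs⟩ h
  have ht0 : (0 : ℝ) ≤ t := ht
  have hs0 : (0 : ℝ) ≤ s := hs
  obtain ⟨n, hn⟩ := Int.eq_ofNat_of_zero_le (Int.floor_nonneg.2 ht0)
  obtain ⟨m, hm⟩ := Int.eq_ofNat_of_zero_le (Int.floor_nonneg.2 hs0)
  have h' : Polyline.path p t = Polyline.path p s := h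
  rw [Polyline.path, Polyline.path, hn, hm, p_succ, p_succ, p_nat, p_nat] at h'
  obtain ⟨e1, e2⟩ := S_inj (Int.fract_nonneg t) (Int.fract_lt_one t) (Int.fract_nonneg s)
    (Int.fract_lt_one s) h'
  have e3 := Spiral.v_injective e1
  apply Subtype.ext
  change t = s
  rw [← Int.floor_add_fract t, ← Int.floor_add_fract s, hn, hm, e2, e3]

/-- The spiral. -/
noncomputable def Γ : Set Plane := Set.range (Polyline.path p ∘ (Subtype.val : Set.Ici (0 : ℝ) → ℝ))

theorem isCurve_Γ : IsCurve Γ := by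
  right
  refine ⟨_, ?_, rfl⟩
  exact Polyline.isClosedEmbedding_path _ isClosed_Ici.isClosedEmbedding_subtypeVal p 1 dist_p
    finite_p curve_inj

theorem mem_Γ (z : Plane) : z ∈ Γ ↔ ∃ (u : ℤ × ℤ) (τ : ℝ), 0 ≤ τ ∧ τ ≤ 1 ∧ z = S u τ := by
  rw [Γ, Polyline.range_path_Ici, Set.mem_iUnion]
  constructor
  · rintro ⟨n, τ, ⟨h0, h1⟩, rfl⟩
    refine ⟨Spiral.v n, τ, h0, h1, ?_⟩
    simp only [p_succ, p_nat]
    rfl
  · rintro ⟨u, τ, h0, h1, rfl⟩
    obtain ⟨n, rfl⟩ := Spiral.v_surjective u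
    refine ⟨n, τ, ⟨h0, h1⟩, ?_⟩
    simp only [p_succ, p_nat]
    rfl

theorem kind_cases (t : ℤ × ℤ) :
    (kind t = 0 ∧ (Spiral.Rig t ∨ Spiral.Lef (t.1, t.2 + 1))) ∨
    (kind t = 1 ∧ (Spiral.Top (t.1 + 1, t.2) ∨ Spiral.Bot t)) ∨
    (kind t = 2 ∧ (Spiral.Bot (t.1, t.2 + 1) ∨ Spiral.Top (t.1 + 1, t.2 + 1))) := by
  unfold kind Spiral.Bot Spiral.Rig Spiral.Top Spiral.Lef
  simp only
  split_ifs with h1 h2 h3 h4
  · left; refine ⟨rfl, ?_⟩; omega
  · right; left; refine ⟨rfl, ?_⟩; omega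
  · right; right; refine ⟨rfl, ?_⟩; omega
  · right; right; refine ⟨rfl, ?_⟩; omega
  · right; left; refine ⟨rfl, ?_⟩; omega

theorem carried_eq : Carried {L} φ = Γ := by
  have hC : Carried {L} φ = ⋃ t, φ t '' L := by
    unfold Carried
    simp
  rw [hC]
  ext z
  rw [Set.mem_iUnion, mem_Γ]
  constructor
  · rintro ⟨t, ht⟩
    rw [mem_φ_L] at ht
    rcases kind_cases t with ⟨hk, h | h⟩ | ⟨hk, h | h⟩ | ⟨hk, h | h⟩ <;> rw [hk] at ht <;>
      obtain ⟨e1, e2, e3⟩ := ht <;> simp [cor] at e1 e2 e3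
    · refine ⟨t, z 1 - t.2, by linarith, by linarith, ?_⟩
      rw [S_rig h]
      apply ext2
      · rw [pt_zero]; linarith
      · rw [pt_one]; ring
    · refine ⟨(t.1, t.2 + 1), t.2 + 1 - z 1, by linarith, by linarith, ?_⟩
      rw [S_lef h]
      apply ext2
      · rw [pt_zero]; linarith
      · rw [pt_one]; push_cast; ring
    · refine ⟨(t.1 + 1, t.2), t.1 + 1 - z 0, by linarith, by linarith, ?_⟩
      rw [S_top h]
      apply ext2
      · rw [pt_zero]; push_cast; ring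
      · rw [pt_one]; linarith
    · refine ⟨t, z 0 - t.1, by linarith, by linarith, ?_⟩
      rw [S_bot h]
      apply ext2
      · rw [pt_zero]; ring
      · rw [pt_one]; linarith
    · refine ⟨(t.1, t.2 + 1), z 0 - t.1, by linarith, by linarith, ?_⟩
      rw [S_bot h]
      apply ext2
      · rw [pt_zero]; ring
      · rw [pt_one]; push_cast; linarith
    · refine ⟨(t.1 + 1, t.2 + 1), t.1 + 1 - z 0, by linarith, by linarith, ?_⟩
      rw [S_top h]
      apply ext2
      · rw [pt_zero]; push_cast; ring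
      · rw [pt_one]; push_cast; linarith
  · rintro ⟨⟨x, y⟩, τ, h0, h1, rfl⟩
    rcases Spiral.cases (x, y) with h | h | h | h
    · refine ⟨(x, y - 1), ?_⟩
      have hk : kind (x, y - 1) = 2 := by
        unfold kind; unfold Spiral.Bot at h; simp only at h ⊢
        rw [if_neg (by omega), if_neg (by omega), if_pos (by omega)]
      rw [mem_φ_L, hk, S_bot h]
      refine ⟨?_, ?_, ?_⟩ <;> simp [cor] <;> linarith
    · refine ⟨(x, y), ?_⟩
      have hk : kind (x, y) = 0 := by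
        unfold kind; unfold Spiral.Rig at h; simp only at h ⊢
        rw [if_pos (by omega)]
      rw [mem_φ_L, hk, S_rig h]
      refine ⟨?_, ?_, ?_⟩ <;> simp [cor] <;> linarith
    · refine ⟨(x - 1, y), ?_⟩
      have hk : kind (x - 1, y) = 1 := by
        unfold kind; unfold Spiral.Top at h; simp only at h ⊢
        rw [if_neg (by omega), if_pos (by omega)]
      rw [mem_φ_L, hk, S_top h]
      refine ⟨?_, ?_, ?_⟩ <;> simp [cor] <;> linarith
    · refine ⟨(x, y - 1), ?_⟩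
      have hk : kind (x, y - 1) = 0 := by
        unfold kind; unfold Spiral.Lef at h; simp only at h ⊢
        rw [if_pos (by omega)]
      rw [mem_φ_L, hk, S_lef h]
      refine ⟨?_, ?_, ?_⟩ <;> simp [cor] <;> linarith

/-! ### The tiling -/

theorem isClosed_Q : IsClosed Q := by
  have h0 : Continuous fun z : Plane => z 0 := by fun_prop
  have h1 : Continuous fun z : Plane => z 1 := by fun_prop
  exact (isClosed_le continuous_const h0).inter ((isClosed_le h0 continuous_const).inter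
    ((isClosed_le continuous_const h1).inter (isClosed_le h1 continuous_const)))

theorem convex_Q : Convex ℝ Q := by
  rintro z ⟨h1, h2, h3, h4⟩ w ⟨k1, k2, k3, k4⟩ a b ha hb hab
  have e0 : (a • z + b • w) 0 = a * z 0 + b * w 0 := by simp
  have e1 : (a • z + b • w) 1 = a * z 1 + b * w 1 := by simp
  have hb' : b = 1 - a := by linarith
  refine ⟨?_, ?_, ?_, ?_⟩
  · rw [e0]; positivity
  · rw [e0]; subst hb'; nlinarith
  · rw [e1]; positivity
  · rw [e1]; subst hb'; nlinarith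

theorem disk_Q : IsClosedDisk Q := by
  have hne : (interior Q).Nonempty := by
    refine ⟨pt (1 / 2) (1 / 2), ?_⟩
    rw [mem_interior]
    refine ⟨{z | 0 < z 0} ∩ ({z | z 0 < 1} ∩ ({z | 0 < z 1} ∩ {z | z 1 < 1})), ?_, ?_, ?_⟩
    · rintro z ⟨h1, h2, h3, h4⟩
      exact ⟨le_of_lt h1, le_of_lt h2, le_of_lt h3, le_of_lt h4⟩
    · have h0 : Continuous fun z : Plane => z 0 := by fun_prop
      have h1 : Continuous fun z : Plane => z 1 := by fun_prop
      exact (isOpen_lt continuous_const h0).inter ((isOpen_lt h0 continuous_const).inter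
        ((isOpen_lt continuous_const h1).inter (isOpen_lt h1 continuous_const)))
    · refine ⟨?_, ?_, ?_, ?_⟩ <;> simp <;> norm_num
  have hb : Bornology.IsBounded Q := by
    rw [Metric.isBounded_iff]
    refine ⟨2, ?_⟩
    rintro z ⟨h1, h2, h3, h4⟩ w ⟨k1, k2, k3, k4⟩
    have h : dist z w ^ 2 ≤ 2 ^ 2 := by
      rw [dist_sq]; nlinarith
    exact (pow_le_pow_iff_left₀ dist_nonneg (by norm_num) two_ne_zero).1 h
  obtain ⟨h, -, h2, -⟩ := exists_homeomorph_image_interior_closure_frontier_eq_unitBall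
    convex_Q hne hb
  rw [isClosed_Q.closure_eq] at h2
  exact ⟨(h.image Q).trans (Homeomorph.setCongr h2)⟩

theorem interior_line (i : Fin 2) (r : ℝ) : interior {z : Plane | z i = r} = ∅ := by
  rw [Set.eq_empty_iff_forall_notMem]
  intro z hz
  rw [mem_interior_iff_mem_nhds, Metric.mem_nhds_iff] at hz
  obtain ⟨ε, hε, h⟩ := hz
  have hz0 : z i = r := h (Metric.mem_ball_self hε)
  have h1 : z + EuclideanSpace.single i (ε / 2) ∈ Metric.ball z ε := by
    rw [Metric.mem_ball, dist_eq_norm]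
    rw [add_sub_cancel_left, PiLp.norm_single, Real.norm_eq_abs]
    rw [abs_of_pos (by linarith)]
    linarith
  have h2 : (z + EuclideanSpace.single i (ε / 2)) i = r := h h1
  simp at h2
  linarith

theorem isArc_L : IsArc L := by
  have hc : Continuous fun t : Set.Icc (0 : ℝ) 1 => pt 0 t.1 := by
    unfold pt
    fun_prop
  have hinj : Function.Injective fun t : Set.Icc (0 : ℝ) 1 => pt 0 t.1 := by
    intro t s h
    have := congrArg (fun z : Plane => z 1) h
    simp only [pt_one] at this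
    exact Subtype.ext this
  have he := hc.isClosedEmbedding hinj
  refine ⟨he.isEmbedding.toHomeomorph.trans (Homeomorph.setCongr ?_)⟩
  ext z
  constructor
  · rintro ⟨t, rfl⟩
    exact ⟨by simp, by simpa using t.2.1, by simpa using t.2.2⟩
  · rintro ⟨h1, h2, h3⟩
    exact ⟨⟨z 1, h2, h3⟩, ext2 (by simp [h1]) (by simp)⟩

theorem markedTiling : MarkedTiling Q {L} φ where
  countable := inferInstance
  disk := disk_Q
  cover := by
    rw [Set.eq_univ_iff_forall]
    intro z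
    rw [Set.mem_iUnion]
    refine ⟨(⌊z 0⌋, ⌊z 1⌋), ?_⟩
    rw [φ_Q]
    exact ⟨Int.floor_le _, (Int.lt_floor_add_one _).le, Int.floor_le _,
      (Int.lt_floor_add_one _).le⟩
  disjoint := by
    rintro ⟨x, y⟩ ⟨x', y'⟩ hne
    rw [Set.disjoint_iff_inter_eq_empty, ← interior_inter, φ_Q, φ_Q]
    apply Set.eq_empty_of_subset_empty
    by_cases hx : x = x'
    · subst hx
      have hy : y ≠ y' := fun h => hne (by rw [h])
      rcases lt_or_gt_of_ne hy with h | h
      · rw [← interior_line 1 y']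
        apply interior_mono
        rintro z ⟨⟨-, -, -, h1⟩, ⟨-, -, h2, -⟩⟩
        have h3 : (y : ℝ) + 1 ≤ y' := by exact_mod_cast h
        simp only at h1 h2
        exact le_antisymm (by linarith) h2
      · rw [← interior_line 1 y]
        apply interior_mono
        rintro z ⟨⟨-, -, h1, -⟩, ⟨-, -, -, h2⟩⟩
        have h3 : (y' : ℝ) + 1 ≤ y := by exact_mod_cast h
        simp only at h1 h2
        exact le_antisymm (by linarith) h1
    · rcases lt_or_gt_of_ne hx with h | h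
      · rw [← interior_line 0 x']
        apply interior_mono
        rintro z ⟨⟨-, h1, -, -⟩, ⟨h2, -, -, -⟩⟩
        have h3 : (x : ℝ) + 1 ≤ x' := by exact_mod_cast h
        simp only at h1 h2
        exact le_antisymm (by linarith) h2
      · rw [← interior_line 0 x]
        apply interior_mono
        rintro z ⟨⟨h1, -, -, -⟩, ⟨-, h2, -, -⟩⟩
        have h3 : (x' : ℝ) + 1 ≤ x := by exact_mod_cast h
        simp only at h1 h2
        exact le_antisymm (by linarith) h1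
  locallyFinite := by
    intro K hK
    obtain ⟨R, hR⟩ := hK.exists_norm_le
    apply ((Set.finite_Icc (-⌈R⌉ - 1) ⌈R⌉).prod (Set.finite_Icc (-⌈R⌉ - 1) ⌈R⌉)).subset
    rintro ⟨x, y⟩ ⟨z, hz, hzK⟩
    rw [φ_Q] at hz
    obtain ⟨h1, h2, h3, h4⟩ := hz
    have hn := hR z hzK
    have h5 := (abs_coord_le z 0).trans (hn.trans (Int.le_ceil R))
    have h6 := (abs_coord_le z 1).trans (hn.trans (Int.le_ceil R))
    rw [abs_le] at h5 h6
    simp only at h1 h2 h3 h4
    refine ⟨⟨?_, ?_⟩, ⟨?_, ?_⟩⟩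
    · have : ((-⌈R⌉ - 1 : ℤ) : ℝ) ≤ x := by push_cast; linarith
      exact_mod_cast this
    · have : (x : ℝ) ≤ ⌈R⌉ := by linarith
      exact_mod_cast this
    · have : ((-⌈R⌉ - 1 : ℤ) : ℝ) ≤ y := by push_cast; linarith
      exact_mod_cast this
    · have : (y : ℝ) ≤ ⌈R⌉ := by linarith
      exact_mod_cast this
  finite := Set.finite_singleton L
  nonempty := Set.singleton_nonempty L
  arcs := by
    intro a ha
    rw [Set.mem_singleton_iff] at ha
    subst ha
    refine ⟨isArc_L, ?_⟩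
    rintro z ⟨h1, h2, h3⟩
    exact ⟨by rw [h1], by rw [h1]; norm_num, h2, h3⟩

/-! ### The aspects -/

theorem side_inj {k l : Fin 3} (h : side k = side l) : k = l := by
  have h0 : ∀ m : Fin 3, pt 0 (1 / 2) ∈ side m → m = 0 := by
    intro m hm
    fin_cases m
    · rfl
    · obtain ⟨h1, -, -⟩ := hm
      norm_num at h1
    · obtain ⟨h1, -, -⟩ := hm
      norm_num at h1
  have h1 : ∀ m : Fin 3, pt (1 / 2) 0 ∈ side m → m = 1 := by
    intro m hm
    fin_cases m
    · obtain ⟨h1, -, -⟩ := hm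
      norm_num at h1
    · rfl
    · obtain ⟨h1, -, -⟩ := hm
      norm_num at h1
  have h2 : ∀ m : Fin 3, pt (1 / 2) 1 ∈ side m → m = 2 := by
    intro m hm
    fin_cases m
    · obtain ⟨h1, -, -⟩ := hm
      norm_num at h1
    · obtain ⟨h1, -, -⟩ := hm
      norm_num at h1
    · rfl
  fin_cases k
  · exact (h0 l (h ▸ ⟨by simp, by norm_num, by norm_num⟩)).symm
  · exact (h1 l (h ▸ ⟨by simp, by norm_num, by norm_num⟩)).symm
  · exact (h2 l (h ▸ ⟨by simp, by norm_num, by norm_num⟩)).symm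

theorem aspects (t s : ℤ × ℤ) : kind t = kind s ↔ SameAspect Q {L} φ t s := by
  have hφ : ∀ t, φ t '' L = (fun z => z + cor t) '' side (kind t) := by
    intro t
    rw [φ_image, g_L]
  constructor
  · intro h
    refine ⟨cor s - cor t, ?_, ?_⟩
    · rw [φ_image, φ_image, g_Q, g_Q, Set.image_image]
      congr 1
      funext z
      abel
    · simp only [Set.image_singleton]
      rw [hφ, hφ, h, Set.image_image]
      congr 2
      funext z
      abel
  · rintro ⟨w, h1, h2⟩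
    have hw : w = cor s - cor t := by
      rw [φ_Q, φ_Q] at h1
      have m1 : cor t + w ∈ (fun z => z + w) '' {z : Plane | (t.1 : ℝ) ≤ z 0 ∧
          z 0 ≤ (t.1 : ℝ) + 1 ∧ (t.2 : ℝ) ≤ z 1 ∧ z 1 ≤ (t.2 : ℝ) + 1} := by
        refine ⟨cor t, ?_, rfl⟩
        refine ⟨?_, ?_, ?_, ?_⟩ <;> simp [cor]
      have m2 : (cor t + pt 1 1) + w ∈ (fun z => z + w) '' {z : Plane | (t.1 : ℝ) ≤ z 0 ∧
          z 0 ≤ (t.1 : ℝ) + 1 ∧ (t.2 : ℝ) ≤ z 1 ∧ z 1 ≤ (t.2 : ℝ) + 1} := by
        refine ⟨cor t + pt 1 1, ?_, rfl⟩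
        refine ⟨?_, ?_, ?_, ?_⟩ <;> simp [cor]
      rw [h1] at m1 m2
      obtain ⟨a1, a2, a3, a4⟩ := m1
      obtain ⟨b1, b2, b3, b4⟩ := m2
      simp [cor] at a1 a2 a3 a4 b1 b2 b3 b4
      apply ext2
      · simp [cor]; linarith
      · simp [cor]; linarith
    subst hw
    simp only [Set.image_singleton, Set.singleton_eq_singleton_iff] at h2
    rw [hφ, hφ, Set.image_image] at h2
    have h3 : (fun z : Plane => z + cor s) '' side (kind t) =
        (fun z : Plane => z + cor s) '' side (kind s) := by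
      rw [← h2]
      congr 1
      funext z
      abel
    exact side_inj ((Set.image_injective.2 (add_left_injective (cor s))) h3)

theorem kind_surj : Function.Surjective kind := by
  intro k
  fin_cases k
  · exact ⟨(1, 0), by decide⟩
  · exact ⟨(0, 1), by decide⟩
  · exact ⟨(0, -1), by decide⟩

/-- There are a prototile `T`, a marking `M` and a marked monohedral tiling with prototile `T` that
is a spiral and in which the marked tiles fall into exactly three aspects. -/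
theorem result : ∃ (ι : Type) (T : Set Plane) (M : Set (Set Plane)) (φ : ι → Plane ≃ᵢ Plane),
    MarkedTiling T M φ ∧ IsSpiral M φ ∧ HasAspects T M φ 3 := by
  refine ⟨ℤ × ℤ, Q, {L}, φ, markedTiling, ?_, kind, kind_surj, aspects⟩
  refine ⟨1, one_pos, fun _ => Γ, fun _ => isCurve_Γ, ?_, ?_⟩
  · intro k l h
    exact absurd (Subsingleton.elim k l) h
  · rw [carried_eq]
    exact Set.iUnion_const Γ

end Pool.Agent.Results.MP_361b6b_co.ThreeAspects
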